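import Mathlib

/-!
For every finite field `F` there is a variety of nonassociative `F`-algebras, defined by a single
identity in one variable, all of whose free algebras of finite rank `n ≥ 1` are not residually
finite.
-/

namespace Pool.Agent.Results.MP_e7abc8_al.NotResiduallyFinite

open FreeNonUnitalNonAssocAlgebra

universe u

section Defs

variable (F : Type) [Field F]

/-- An `F`-algebra: a vector space over `F` with a bilinear multiplication, on which no further
condition is imposed. -/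
structure Alg where
  /-- the underlying set -/
  carrier : Type u
  [ring : NonUnitalNonAssocRing carrier]
  [mod : Module F carrier]
  [tower : IsScalarTower F carrier carrier]
  [comm : SMulCommClass F carrier carrier]

attribute [instance] Alg.ring Alg.mod Alg.tower Alg.comm

/-- The algebra `A` satisfies every polynomial identity belonging to the set `S`. -/
def Satisfies (S : Set (FreeNonUnitalNonAssocAlgebra F ℕ)) (A : Alg.{u} F) : Prop :=
  ∀ f ∈ S, ∀ v : ℕ → A.carrier, lift F v f = 0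

/-- The element `g` of the free algebra on `n` generators belongs to `T_n`: it vanishes under every
substitution in every algebra of the variety defined by `S`. -/
def InT (S : Set (FreeNonUnitalNonAssocAlgebra F ℕ)) {n : ℕ}
    (g : FreeNonUnitalNonAssocAlgebra F (Fin n)) : Prop :=
  ∀ B : Alg.{u} F, Satisfies F S B → ∀ v : Fin n → B.carrier, lift F v g = 0

/-- `A`, with the distinguished elements `x_1, ..., x_n`, is the relatively free algebra
`F{x_1, ..., x_n} / T_n` of rank `n` of the variety defined by `S`: the canonical homomorphism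
from the free algebra is onto and its kernel is exactly `T_n`. -/
def IsRelFree (S : Set (FreeNonUnitalNonAssocAlgebra F ℕ)) {n : ℕ} (A : Alg.{0} F)
    (x : Fin n → A.carrier) : Prop :=
  Function.Surjective (lift F x) ∧
    ∀ g : FreeNonUnitalNonAssocAlgebra F (Fin n), lift F x g = 0 ↔ InT.{u} F S g

/-- The algebra `A` is residually finite: every nonzero element `a` lies outside some two-sided
ideal `J` (a subspace closed under multiplication by elements of `A` on both sides) such that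
`A / J` is finite. -/
def ResiduallyFinite (A : Alg.{0} F) : Prop :=
  ∀ a : A.carrier, a ≠ 0 → ∃ J : Submodule F A.carrier,
    (∀ b ∈ J, ∀ c : A.carrier, b * c ∈ J ∧ c * b ∈ J) ∧ a ∉ J ∧ Finite (A.carrier ⧸ J)

end Defs

/-! ### Construction of the relatively free algebra -/

noncomputable section

section Quot

variable (F : Type) [Field F]

/-- The ideal `T_n` as a subspace. -/
def identities (S : Set (FreeNonUnitalNonAssocAlgebra F ℕ)) (n : ℕ) :
    Submodule F (FreeNonUnitalNonAssocAlgebra F (Fin n)) where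
  carrier := {g | InT.{u} F S g}
  add_mem' := by
    intro a b ha hb A hA v
    rw [map_add, ha A hA v, hb A hA v, add_zero]
  zero_mem' := by
    intro A _ v
    exact map_zero _
  smul_mem' := by
    intro c a ha A hA v
    rw [map_smul, ha A hA v, smul_zero]

/-- The quotient by `T_n`. -/
def RelFree (S : Set (FreeNonUnitalNonAssocAlgebra F ℕ)) (n : ℕ) : Type :=
  FreeNonUnitalNonAssocAlgebra F (Fin n) ⧸ identities.{u} F S n

variable (S : Set (FreeNonUnitalNonAssocAlgebra F ℕ)) (n : ℕ)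

variable {F S n} in
theorem mul_mem_identities {a b : FreeNonUnitalNonAssocAlgebra F (Fin n)}
    (h : a ∈ identities.{u} F S n ∨ b ∈ identities.{u} F S n) :
    a * b ∈ identities.{u} F S n := by
  intro A hA v
  rw [map_mul]
  rcases h with h | h
  · rw [h A hA v, zero_mul]
  · rw [h A hA v, mul_zero]

instance : AddCommGroup (RelFree.{u} F S n) :=
  inferInstanceAs (AddCommGroup (FreeNonUnitalNonAssocAlgebra F (Fin n) ⧸ identities.{u} F S n))

instance : Module F (RelFree.{u} F S n) :=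
  inferInstanceAs (Module F (FreeNonUnitalNonAssocAlgebra F (Fin n) ⧸ identities.{u} F S n))

variable {F S n} in
/-- The class of a polynomial in the relatively free algebra. -/
def cls (a : FreeNonUnitalNonAssocAlgebra F (Fin n)) : RelFree.{u} F S n :=
  Submodule.Quotient.mk a

variable {F S n} in
theorem cls_eq {a b : FreeNonUnitalNonAssocAlgebra F (Fin n)} :
    (cls a : RelFree.{u} F S n) = cls b ↔ a - b ∈ identities.{u} F S n :=
  Submodule.Quotient.eq _

instance : Mul (RelFree.{u} F S n) where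
  mul := Quotient.map₂ (fun a b => a * b) (by
    intro a a' ha b b' hb
    have ha' : a - a' ∈ identities.{u} F S n := (Submodule.quotientRel_def _).1 ha
    have hb' : b - b' ∈ identities.{u} F S n := (Submodule.quotientRel_def _).1 hb
    refine (Submodule.quotientRel_def _).2 ?_
    have : a * b - a' * b' = (a - a') * b + a' * (b - b') := by
      rw [sub_mul, mul_sub]; abel
    rw [this]
    exact add_mem (mul_mem_identities (Or.inl ha')) (mul_mem_identities (Or.inr hb')))

variable {F S n} in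
theorem cls_mul (a b : FreeNonUnitalNonAssocAlgebra F (Fin n)) :
    (cls (a * b) : RelFree.{u} F S n) = cls a * cls b := rfl

variable {F S n} in
theorem cls_add (a b : FreeNonUnitalNonAssocAlgebra F (Fin n)) :
    (cls (a + b) : RelFree.{u} F S n) = cls a + cls b := rfl

variable {F S n} in
theorem cls_smul (c : F) (a : FreeNonUnitalNonAssocAlgebra F (Fin n)) :
    (cls (c • a) : RelFree.{u} F S n) = c • cls a := rfl

variable {F S n} in
theorem cls_zero : (cls 0 : RelFree.{u} F S n) = 0 := rfl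

variable {F S n} in
theorem cls_surj (x : RelFree.{u} F S n) : ∃ a, cls a = x := by
  obtain ⟨a, ha⟩ := Submodule.Quotient.mk_surjective _ x
  exact ⟨a, ha⟩

instance : NonUnitalNonAssocRing (RelFree.{u} F S n) where
  left_distrib := by
    intro x y z
    obtain ⟨a, rfl⟩ := cls_surj x
    obtain ⟨b, rfl⟩ := cls_surj y
    obtain ⟨c, rfl⟩ := cls_surj z
    rw [← cls_add, ← cls_mul, ← cls_mul, ← cls_mul, ← cls_add, mul_add]
  right_distrib := by
    intro x y z
    obtain ⟨a, rfl⟩ := cls_surj x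
    obtain ⟨b, rfl⟩ := cls_surj y
    obtain ⟨c, rfl⟩ := cls_surj z
    rw [← cls_add, ← cls_mul, ← cls_mul, ← cls_mul, ← cls_add, add_mul]
  zero_mul := by
    intro x
    obtain ⟨a, rfl⟩ := cls_surj x
    rw [← cls_zero, ← cls_mul, zero_mul]
  mul_zero := by
    intro x
    obtain ⟨a, rfl⟩ := cls_surj x
    rw [← cls_zero, ← cls_mul, mul_zero]

instance : IsScalarTower F (RelFree.{u} F S n) (RelFree.{u} F S n) where
  smul_assoc := by
    intro c x y
    obtain ⟨a, rfl⟩ := cls_surj x
    obtain ⟨b, rfl⟩ := cls_surj y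
    rw [smul_eq_mul, smul_eq_mul, ← cls_smul, ← cls_mul, ← cls_mul, ← cls_smul, smul_mul_assoc]

instance : SMulCommClass F (RelFree.{u} F S n) (RelFree.{u} F S n) where
  smul_comm := by
    intro c x y
    obtain ⟨a, rfl⟩ := cls_surj x
    obtain ⟨b, rfl⟩ := cls_surj y
    rw [smul_eq_mul, smul_eq_mul, ← cls_smul, ← cls_mul, ← cls_mul, ← cls_smul, mul_smul_comm]

end Quot

section General

variable {F : Type} [Field F] {S : Set (FreeNonUnitalNonAssocAlgebra F ℕ)} {n : ℕ}

/-- The quotient map as a homomorphism. -/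
def clsHom : FreeNonUnitalNonAssocAlgebra F (Fin n) →ₙₐ[F] RelFree.{u} F S n where
  toFun := cls
  map_smul' _ _ := rfl
  map_zero' := rfl
  map_add' _ _ := rfl
  map_mul' _ _ := rfl

/-- The free generators of the relatively free algebra. -/
def gen (i : Fin n) : RelFree.{u} F S n := cls (of F i)

/-- Composition of evaluation maps. -/
theorem lift_comp {X : Type} {A B : Type*} [NonUnitalNonAssocRing A] [Module F A]
    [IsScalarTower F A A] [SMulCommClass F A A] [NonUnitalNonAssocRing B] [Module F B]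
    [IsScalarTower F B B] [SMulCommClass F B B]
    (φ : A →ₙₐ[F] B) (v : X → A) (f : FreeNonUnitalNonAssocAlgebra F X) :
    φ (lift F v f) = lift F (fun x => φ (v x)) f := by
  have : φ.comp (lift F v) = lift F (fun x => φ (v x)) := by
    apply FreeNonUnitalNonAssocAlgebra.hom_ext
    intro x
    simp
  rw [← this]; rfl

theorem lift_of_self (f : FreeNonUnitalNonAssocAlgebra F (Fin n)) :
    lift F (of F) f = f := by
  have : lift F (of F) = NonUnitalAlgHom.id F (FreeNonUnitalNonAssocAlgebra F (Fin n)) := by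
    apply FreeNonUnitalNonAssocAlgebra.hom_ext
    intro x
    simp
  rw [this]; rfl

theorem lift_gen (f : FreeNonUnitalNonAssocAlgebra F (Fin n)) :
    lift F (gen : Fin n → RelFree.{u} F S n) f = cls f := by
  have h := lift_comp (clsHom : _ →ₙₐ[F] RelFree.{u} F S n) (of F) f
  rw [lift_of_self] at h
  exact h.symm

variable (F S n) in
/-- The quotient by `T_n` as an algebra. -/
def relFreeAlg : Alg.{0} F := ⟨RelFree.{u} F S n⟩

/-- The quotient is the relatively free algebra. -/
theorem isRelFree_gen : IsRelFree.{u} F S (relFreeAlg.{u} F S n) gen := by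
  constructor
  · intro y
    obtain ⟨a, rfl⟩ := cls_surj y
    exact ⟨a, lift_gen a⟩
  · intro g
    have h := lift_gen (S := S) g
    change lift F (gen : Fin n → RelFree.{u} F S n) g = 0 ↔ _
    rw [h, ← cls_zero, cls_eq, sub_zero]
    exact Iff.rfl

/-- Every substitution of polynomials for the generators induces an endomorphism of the
relatively free algebra. -/
theorem exists_endo (v : Fin n → FreeNonUnitalNonAssocAlgebra F (Fin n)) :
    ∃ φ : RelFree.{u} F S n →ₙₐ[F] RelFree.{u} F S n, ∀ a, φ (cls a) = cls (lift F v a) := by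
  let L : FreeNonUnitalNonAssocAlgebra F (Fin n) →ₗ[F] RelFree.{u} F S n :=
    { toFun := fun a => cls (lift F v a)
      map_add' := fun a b => by rw [map_add, cls_add]
      map_smul' := fun c a => by rw [map_smul, cls_smul]; rfl }
  have hker : identities.{u} F S n ≤ LinearMap.ker L := by
    intro a ha
    refine cls_eq.2 ?_
    rw [sub_zero]
    intro A hA w
    rw [lift_comp]
    exact ha A hA _
  let L' : RelFree.{u} F S n →ₗ[F] RelFree.{u} F S n := Submodule.liftQ _ L hker
  have hL' : ∀ a, L' (cls a) = cls (lift F v a) := fun a => Submodule.liftQ_apply _ L a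
  refine ⟨{ toFun := L', map_smul' := L'.map_smul, map_zero' := L'.map_zero,
            map_add' := L'.map_add, map_mul' := ?_ }, hL'⟩
  intro x y
  obtain ⟨a, rfl⟩ := cls_surj x
  obtain ⟨b, rfl⟩ := cls_surj y
  rw [← cls_mul, hL', hL', hL', map_mul, cls_mul]

/-- Two substitutions that agree modulo identities give the same classes. -/
theorem cls_lift_congr {v w : Fin n → FreeNonUnitalNonAssocAlgebra F (Fin n)}
    (h : ∀ i, (cls (v i) : RelFree.{u} F S n) = cls (w i))
    (f : FreeNonUnitalNonAssocAlgebra F (Fin n)) :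
    (cls (lift F v f) : RelFree.{u} F S n) = cls (lift F w f) := by
  have h1 := lift_comp (clsHom : _ →ₙₐ[F] RelFree.{u} F S n) v f
  have h2 := lift_comp (clsHom : _ →ₙₐ[F] RelFree.{u} F S n) w f
  have h3 : (fun i => (clsHom (v i) : RelFree.{u} F S n)) = fun i => clsHom (w i) := funext h
  rw [h3, ← h2] at h1
  exact h1

end General

/-! ### The polynomials -/

section Poly

variable {A B : Type*} [NonUnitalNonAssocRing A] [NonUnitalNonAssocRing B]

/-- Right-normed power of `y` with `k + 1` factors. -/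
def rpow (y : A) : ℕ → A
  | 0 => y
  | k + 1 => y * rpow y k

/-- The power polynomial `E(x)`. -/
def E (k : ℕ) (x : A) : A := rpow ((x * x) * (x * x)) k

/-- The polynomial `c(x) = (E(Ex))E - E(E(Ex))`. -/
def c (k : ℕ) (x : A) : A :=
  (E k x * (E k x * x)) * E k x - E k x * (E k x * (E k x * x))

/-- The polynomial `f(x) = x + c(x)`. -/
def f (k : ℕ) (x : A) : A := x + c k x

/-- The polynomial `g(x) = x + E(Ec) + (Ec)E`. -/
def g (k : ℕ) (x : A) : A := x + (E k x * (E k x * c k x) + (E k x * c k x) * E k x)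

theorem map_rpow {G : Type*} [FunLike G A B] [NonUnitalRingHomClass G A B] (φ : G) (y : A)
    (k : ℕ) : φ (rpow y k) = rpow (φ y) k := by
  induction k with
  | zero => rfl
  | succ k ih => rw [rpow, rpow, map_mul, ih]

theorem map_E {G : Type*} [FunLike G A B] [NonUnitalRingHomClass G A B] (φ : G) (y : A)
    (k : ℕ) : φ (E k y) = E k (φ y) := by
  rw [E, E, map_rpow, map_mul, map_mul]

theorem map_c {G : Type*} [FunLike G A B] [NonUnitalRingHomClass G A B] (φ : G) (y : A)
    (k : ℕ) : φ (c k y) = c k (φ y) := by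
  rw [c, c, map_sub, map_mul, map_mul, map_mul, map_mul, map_mul, map_mul, map_E]

theorem map_f {G : Type*} [FunLike G A B] [NonUnitalRingHomClass G A B] (φ : G) (y : A)
    (k : ℕ) : φ (f k y) = f k (φ y) := by
  rw [f, f, map_add, map_c]

theorem map_g {G : Type*} [FunLike G A B] [NonUnitalRingHomClass G A B] (φ : G) (y : A)
    (k : ℕ) : φ (g k y) = g k (φ y) := by
  rw [g, g, map_add, map_add, map_mul, map_mul, map_mul, map_mul, map_E, map_c]

end Poly

/-! ### The infinite-dimensional model -/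

section Model

variable (F : Type) [Field F]

/-- The space of sequences. -/
abbrev Seq : Type u := ULift.{u} ℕ → F

/-- The right shift. -/
def sh : Seq.{u} F →ₗ[F] Seq.{u} F where
  toFun w n := if n.down = 0 then 0 else w ⟨n.down - 1⟩
  map_add' := by
    intro v w
    funext n
    by_cases h : n.down = 0 <;> simp [h]
  map_smul' := by
    intro t w
    funext n
    by_cases h : n.down = 0 <;> simp [h]

/-- The left shift. -/
def bk : Seq.{u} F →ₗ[F] Seq.{u} F where
  toFun w n := w ⟨n.down + 1⟩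
  map_add' _ _ := rfl
  map_smul' _ _ := rfl

theorem bk_sh (w : Seq.{u} F) : bk F (sh F w) = w := by
  funext n
  simp [bk, sh]

theorem sh_zero (w : Seq.{u} F) : sh F w ⟨0⟩ = 0 := by
  simp [sh]

/-- The model: `F e ⊕ W`, where `W` is the sum of three copies of the space of sequences. -/
def Model : Type u := F × Seq.{u} F × Seq.{u} F × Seq.{u} F

instance : AddCommGroup (Model.{u} F) :=
  inferInstanceAs (AddCommGroup (F × Seq.{u} F × Seq.{u} F × Seq.{u} F))

instance : Module F (Model.{u} F) :=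
  inferInstanceAs (Module F (F × Seq.{u} F × Seq.{u} F × Seq.{u} F))

variable {F}

/-- Constructor for elements of the model. -/
def mk (a : F) (w₁ w₂ w₃ : Seq.{u} F) : Model.{u} F := (a, w₁, w₂, w₃)

omit [Field F] in
theorem mk_surj (x : Model.{u} F) : ∃ a w₁ w₂ w₃, x = mk a w₁ w₂ w₃ :=
  ⟨x.1, x.2.1, x.2.2.1, x.2.2.2, rfl⟩

theorem mk_add (a b : F) (v₁ v₂ v₃ w₁ w₂ w₃ : Seq.{u} F) :
    mk a v₁ v₂ v₃ + mk b w₁ w₂ w₃ = mk (a + b) (v₁ + w₁) (v₂ + w₂) (v₃ + w₃) := rfl

theorem mk_sub (a b : F) (v₁ v₂ v₃ w₁ w₂ w₃ : Seq.{u} F) :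
    mk a v₁ v₂ v₃ - mk b w₁ w₂ w₃ = mk (a - b) (v₁ - w₁) (v₂ - w₂) (v₃ - w₃) := rfl

theorem mk_smul (t a : F) (v₁ v₂ v₃ : Seq.{u} F) :
    t • mk a v₁ v₂ v₃ = mk (t • a) (t • v₁) (t • v₂) (t • v₃) := rfl

theorem mk_zero : (0 : Model.{u} F) = mk 0 0 0 0 := rfl

instance : Mul (Model.{u} F) where
  mul x y := mk (x.1 * y.1)
    (y.1 • (sh F x.2.2.2 - x.2.2.2 - bk F x.2.2.1))
    (x.1 • y.2.1 - y.1 • x.2.1)
    (x.1 • y.2.2.1 - y.1 • x.2.2.1)

theorem mk_mul (a b : F) (v₁ v₂ v₃ w₁ w₂ w₃ : Seq.{u} F) :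
    mk a v₁ v₂ v₃ * mk b w₁ w₂ w₃ =
      mk (a * b) (b • (sh F v₃ - v₃ - bk F v₂)) (a • w₁ - b • v₁) (a • w₂ - b • v₂) := rfl

instance : NonUnitalNonAssocRing (Model.{u} F) where
  left_distrib := by
    intro x y z
    obtain ⟨a, v₁, v₂, v₃, rfl⟩ := mk_surj x
    obtain ⟨b, w₁, w₂, w₃, rfl⟩ := mk_surj y
    obtain ⟨c, u₁, u₂, u₃, rfl⟩ := mk_surj z
    simp only [mk_add, mk_mul, mul_add, smul_add, add_smul]
    congr 1 <;> abel
  right_distrib := by
    intro x y z
    obtain ⟨a, v₁, v₂, v₃, rfl⟩ := mk_surj x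
    obtain ⟨b, w₁, w₂, w₃, rfl⟩ := mk_surj y
    obtain ⟨c, u₁, u₂, u₃, rfl⟩ := mk_surj z
    simp only [mk_add, mk_mul, add_mul, smul_add, add_smul, map_add, smul_sub]
    congr 1 <;> abel
  zero_mul := by
    intro x
    obtain ⟨a, v₁, v₂, v₃, rfl⟩ := mk_surj x
    rw [mk_zero, mk_mul]
    simp
  mul_zero := by
    intro x
    obtain ⟨a, v₁, v₂, v₃, rfl⟩ := mk_surj x
    rw [mk_zero, mk_mul]
    simp

instance : IsScalarTower F (Model.{u} F) (Model.{u} F) where
  smul_assoc := by
    intro t x y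
    obtain ⟨a, v₁, v₂, v₃, rfl⟩ := mk_surj x
    obtain ⟨b, w₁, w₂, w₃, rfl⟩ := mk_surj y
    simp only [smul_eq_mul, mk_smul, mk_mul, map_smul, smul_sub, smul_smul, mul_assoc,
      mul_comm b t]

instance : SMulCommClass F (Model.{u} F) (Model.{u} F) where
  smul_comm := by
    intro t x y
    obtain ⟨a, v₁, v₂, v₃, rfl⟩ := mk_surj x
    obtain ⟨b, w₁, w₂, w₃, rfl⟩ := mk_surj y
    simp only [smul_eq_mul, mk_smul, mk_mul, smul_sub, smul_smul, mul_comm a t,
      mul_left_comm a t]


theorem rpow_model (t : F) (k : ℕ) : rpow (mk t 0 0 0 : Model.{u} F) k = mk (t ^ (k + 1)) 0 0 0 := by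
  induction k with
  | zero => simp [rpow]
  | succ k ih =>
    rw [rpow, ih, mk_mul, pow_succ' t (k + 1)]
    simp

theorem sq_model (a : F) (v₁ v₂ v₃ : Seq.{u} F) :
    (mk a v₁ v₂ v₃ * mk a v₁ v₂ v₃) * (mk a v₁ v₂ v₃ * mk a v₁ v₂ v₃) = mk (a ^ 4) 0 0 0 := by
  have h : a * a * (a * a) = a ^ 4 := by ring
  simp [mk_mul, h]

theorem E_model (k : ℕ) (a : F) (v₁ v₂ v₃ : Seq.{u} F) :
    E k (mk a v₁ v₂ v₃) = mk ((a ^ 4) ^ (k + 1)) 0 0 0 := by
  rw [E, sq_model, rpow_model]

theorem c_model (k : ℕ) (a : F) (v₁ v₂ v₃ : Seq.{u} F) (d : F) (hd : (a ^ 4) ^ (k + 1) = d)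
    (h1 : d * a = a) (h2 : d * d = d) :
    c k (mk a v₁ v₂ v₃) = mk 0 (d • (sh F v₁ - v₁)) 0 0 := by
  rw [c, E_model, hd]
  simp only [mk_mul, mk_sub, map_zero, sub_zero, smul_zero, h1, mul_comm a d,
    sub_self, smul_smul, h2, map_smul, smul_sub]

theorem f_model (k : ℕ) (a : F) (v₁ v₂ v₃ : Seq.{u} F) (d : F) (hd : (a ^ 4) ^ (k + 1) = d)
    (h1 : d * a = a) (h2 : d * d = d) :
    f k (mk a v₁ v₂ v₃) = mk a (v₁ + d • (sh F v₁ - v₁)) v₂ v₃ := by
  rw [f, c_model k a v₁ v₂ v₃ d hd h1 h2, mk_add]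
  simp only [add_zero]

theorem g_model (k : ℕ) (a : F) (v₁ v₂ v₃ : Seq.{u} F) (d : F) (hd : (a ^ 4) ^ (k + 1) = d)
    (h1 : d * a = a) (h2 : d * d = d) :
    g k (mk a v₁ v₂ v₃) = mk a (v₁ - d • (v₁ - bk F v₁)) v₂ v₃ := by
  rw [g, c_model k a v₁ v₂ v₃ d hd h1 h2, E_model, hd]
  simp only [mk_mul, mk_add, map_zero, sub_zero, smul_zero, zero_sub, mul_zero,
    zero_mul, sub_self, smul_smul, h2, map_smul, smul_sub, map_sub, bk_sh, add_zero, zero_add,
    neg_sub]
  congr 1 <;> abel

/-- The `4 (q - 1)`-th power of an element of a finite field. -/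
theorem exists_indicator [Finite F] (a : F) :
    ∃ d : F, (a ^ 4) ^ (Nat.card F - 2 + 1) = d ∧ d * a = a ∧ d * d = d ∧
      (a = 0 ∧ d = 0 ∨ a ≠ 0 ∧ d = 1) := by
  have := Fintype.ofFinite F
  have hq : 1 < Nat.card F := by
    rw [Nat.card_eq_fintype_card]
    exact Fintype.one_lt_card
  by_cases ha : a = 0
  · refine ⟨0, ?_, ?_, ?_, Or.inl ⟨ha, rfl⟩⟩
    · rw [ha]
      simp
    · rw [ha, mul_zero]
    · rw [mul_zero]
  · refine ⟨1, ?_, one_mul _, one_mul _, Or.inr ⟨ha, rfl⟩⟩
    have h2 : Nat.card F - 2 + 1 = Nat.card F - 1 := by omega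
    rw [h2, ← pow_mul, mul_comm, pow_mul, Nat.card_eq_fintype_card,
      FiniteField.pow_card_sub_one_eq_one a ha, one_pow]

/-- In the model `g (f x) = x`. -/
theorem gf_model [Finite F] (x : Model.{u} F) :
    g (Nat.card F - 2) (f (Nat.card F - 2) x) = x := by
  obtain ⟨a, v₁, v₂, v₃, rfl⟩ := mk_surj x
  obtain ⟨d, hd, h1, h2, h3⟩ := exists_indicator a
  rw [f_model _ a v₁ v₂ v₃ d hd h1 h2, g_model _ a _ v₂ v₃ d hd h1 h2]
  rcases h3 with ⟨-, rfl⟩ | ⟨-, rfl⟩
  · simp
  · simp [bk_sh]

/-- In the model `f` is not surjective. -/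
theorem f_model_ne [Finite F] (x : Model.{u} F) :
    f (Nat.card F - 2) x ≠ mk 1 (fun _ => 1) 0 0 := by
  obtain ⟨a, v₁, v₂, v₃, rfl⟩ := mk_surj x
  obtain ⟨d, hd, h1, h2, h3⟩ := exists_indicator a
  rw [f_model _ a v₁ v₂ v₃ d hd h1 h2]
  intro h
  have ha : a = 1 := congrArg Prod.fst h
  have hv : v₁ + d • (sh F v₁ - v₁) = fun _ => 1 := congrArg (fun t => t.2.1) h
  rcases h3 with ⟨h4, -⟩ | ⟨-, rfl⟩
  · rw [ha] at h4
    exact one_ne_zero h4
  · have := congrFun hv ⟨0⟩
    rw [one_smul, add_sub_cancel, sh_zero] at this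
    exact zero_ne_one this

end Model

section Main

variable (F : Type) [Field F]

/-- The identity `g (f x) = x`, for the polynomials `f` and `g` attached to the finite field `F`. -/
def P : FreeNonUnitalNonAssocAlgebra F ℕ :=
  g (Nat.card F - 2) (f (Nat.card F - 2) (of F 0)) - of F 0

theorem lift_P {A : Type*} [NonUnitalNonAssocRing A] [Module F A]
    [IsScalarTower F A A] [SMulCommClass F A A] (v : ℕ → A) :
    lift F v (P F) = g (Nat.card F - 2) (f (Nat.card F - 2) (v 0)) - v 0 := by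
  rw [P, map_sub, map_g, map_f, lift_of_apply]

/-- The model belongs to the variety. -/
theorem model_satisfies [Finite F] : Satisfies.{u} F {P F} ⟨Model.{u} F⟩ := by
  intro h hf v
  rw [Set.mem_singleton_iff] at hf
  change lift F (v : ℕ → Model.{u} F) h = 0
  rw [hf, lift_P, gf_model, sub_self]

/-- The relatively free algebra satisfies the identity. -/
theorem relFree_identity {n : ℕ} (a : FreeNonUnitalNonAssocAlgebra F (Fin n)) :
    (cls (g (Nat.card F - 2) (f (Nat.card F - 2) a)) : RelFree.{u} F {P F} n) = cls a := by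
  rw [cls_eq]
  intro A hA v
  have h := hA (P F) (Set.mem_singleton _) (fun _ => lift F v a)
  rw [lift_P] at h
  rw [map_sub, map_g, map_f]
  exact h

end Main

section Ideal

variable {F : Type} [Field F] {A : Type} [NonUnitalNonAssocRing A] [Module F A]
  {J : Submodule F A}

theorem rel_mul (hJ : ∀ b ∈ J, ∀ c : A, b * c ∈ J ∧ c * b ∈ J) {b b' c c' : A}
    (h : b - b' ∈ J) (h' : c - c' ∈ J) : b * c - b' * c' ∈ J := by
  have : b * c - b' * c' = (b - b') * c + b' * (c - c') := by
    rw [sub_mul, mul_sub]; abel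
  rw [this]
  exact J.add_mem (hJ _ h _).1 (hJ _ h' _).2

theorem rel_add {b b' c c' : A} (h : b - b' ∈ J) (h' : c - c' ∈ J) :
    (b + c) - (b' + c') ∈ J := by
  have : (b + c) - (b' + c') = (b - b') + (c - c') := by abel
  rw [this]
  exact J.add_mem h h'

theorem rel_sub {b b' c c' : A} (h : b - b' ∈ J) (h' : c - c' ∈ J) :
    (b - c) - (b' - c') ∈ J := by
  have : (b - c) - (b' - c') = (b - b') - (c - c') := by abel
  rw [this]
  exact J.sub_mem h h'

theorem rel_rpow (hJ : ∀ b ∈ J, ∀ c : A, b * c ∈ J ∧ c * b ∈ J) {b b' : A}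
    (h : b - b' ∈ J) (k : ℕ) : rpow b k - rpow b' k ∈ J := by
  induction k with
  | zero => exact h
  | succ k ih => exact rel_mul hJ h ih

theorem rel_E (hJ : ∀ b ∈ J, ∀ c : A, b * c ∈ J ∧ c * b ∈ J) {b b' : A}
    (h : b - b' ∈ J) (k : ℕ) : E k b - E k b' ∈ J :=
  rel_rpow hJ (rel_mul hJ (rel_mul hJ h h) (rel_mul hJ h h)) k

theorem rel_c (hJ : ∀ b ∈ J, ∀ c : A, b * c ∈ J ∧ c * b ∈ J) {b b' : A}
    (h : b - b' ∈ J) (k : ℕ) : c k b - c k b' ∈ J := by
  have hE := rel_E hJ h k
  have h1 := rel_mul hJ hE h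
  have h2 := rel_mul hJ hE h1
  exact rel_sub (rel_mul hJ h2 hE) (rel_mul hJ hE h2)

theorem rel_f (hJ : ∀ b ∈ J, ∀ c : A, b * c ∈ J ∧ c * b ∈ J) {b b' : A}
    (h : b - b' ∈ J) (k : ℕ) : f k b - f k b' ∈ J :=
  rel_add h (rel_c hJ h k)

theorem rel_g (hJ : ∀ b ∈ J, ∀ c : A, b * c ∈ J ∧ c * b ∈ J) {b b' : A}
    (h : b - b' ∈ J) (k : ℕ) : g k b - g k b' ∈ J := by
  have hE := rel_E hJ h k
  have h1 := rel_mul hJ hE (rel_c hJ h k)
  exact rel_add h (rel_add (rel_mul hJ hE h1) (rel_mul hJ h1 hE))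

/-- If `g (f b) = b` for all `b`, then `f (g b) - b` belongs to every ideal of finite index. -/
theorem fg_mem (hJ : ∀ b ∈ J, ∀ c : A, b * c ∈ J ∧ c * b ∈ J) [Finite (A ⧸ J)] (k : ℕ)
    (hid : ∀ b : A, g k (f k b) = b) (x : A) : f k (g k x) - x ∈ J := by
  let σ : A ⧸ J → A ⧸ J := Quotient.map (fun b => f k b) (by
    intro b b' h
    exact (Submodule.quotientRel_def _).2 (rel_f hJ ((Submodule.quotientRel_def _).1 h) k))
  have hσ : ∀ b : A, σ (Submodule.Quotient.mk b) = Submodule.Quotient.mk (f k b) := fun _ => rfl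
  have hinj : Function.Injective σ := by
    intro y z h
    obtain ⟨b, rfl⟩ := Submodule.Quotient.mk_surjective _ y
    obtain ⟨b', rfl⟩ := Submodule.Quotient.mk_surjective _ z
    rw [hσ, hσ, Submodule.Quotient.eq] at h
    rw [Submodule.Quotient.eq]
    have := rel_g hJ h k
    rwa [hid, hid] at this
  obtain ⟨y, hy⟩ := (Finite.injective_iff_surjective.1 hinj) (Submodule.Quotient.mk x)
  obtain ⟨b, rfl⟩ := Submodule.Quotient.mk_surjective _ y
  rw [hσ, Submodule.Quotient.eq] at hy
  have h1 := rel_g hJ hy k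
  rw [hid] at h1
  have h2 := rel_f hJ h1 k
  have h3 : f k (g k x) - x = (f k b - x) - (f k b - f k (g k x)) := by abel
  rw [h3]
  exact J.sub_mem hy h2

end Ideal

/-- For every finite field `F` there is a variety of `F`-algebras, defined by a single identity
`p = 0`, such that for every `n ≥ 1` the relatively free algebra `A = F_n(V)` is not residually
finite. -/
theorem result (F : Type) [Field F] [Finite F] :
    ∃ p : FreeNonUnitalNonAssocAlgebra F ℕ, ∀ n : ℕ, 1 ≤ n →
      ∃ (A : Alg.{0} F) (x : Fin n → A.carrier),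
        IsRelFree.{u} F {p} A x ∧ ¬ ResiduallyFinite F A := by
  refine ⟨P F, fun n hn => ⟨relFreeAlg.{u} F {P F} n, gen, isRelFree_gen, ?_⟩⟩
  have hid : ∀ b : RelFree.{u} F {P F} n, g (Nat.card F - 2) (f (Nat.card F - 2) b) = b := by
    intro b
    obtain ⟨b, rfl⟩ := cls_surj b
    have h2 := relFree_identity.{u} F b
    have h3 := map_g (clsHom : _ →ₙₐ[F] RelFree.{u} F {P F} n) (f (Nat.card F - 2) b)
      (Nat.card F - 2)
    have h4 := map_f (clsHom : _ →ₙₐ[F] RelFree.{u} F {P F} n) b (Nat.card F - 2)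
    change cls (g _ (f _ b)) = g _ (cls (f _ b)) at h3
    change cls (f _ b) = f _ (cls b) at h4
    rw [← h4, ← h3, h2]
  let i₀ : Fin n := ⟨0, hn⟩
  let a : RelFree.{u} F {P F} n :=
    f (Nat.card F - 2) (g (Nat.card F - 2) (gen i₀)) - gen i₀
  have ha : a ≠ 0 := by
    intro h
    have h3 := map_g (clsHom : _ →ₙₐ[F] RelFree.{u} F {P F} n) (of F i₀) (Nat.card F - 2)
    have h4 := map_f (clsHom : _ →ₙₐ[F] RelFree.{u} F {P F} n)
      (g (Nat.card F - 2) (of F i₀)) (Nat.card F - 2)
    change cls (g _ (of F i₀)) = g _ (gen i₀) at h3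
    change cls (f _ (g _ (of F i₀))) = f _ (cls (g _ (of F i₀))) at h4
    rw [h3] at h4
    rw [sub_eq_zero, ← h4, gen, cls_eq] at h
    have h1 := h ⟨Model.{u} F⟩ (model_satisfies F) (fun _ => mk 1 (fun _ => 1) 0 0)
    change lift F (fun _ => (mk 1 (fun _ => 1) 0 0 : Model.{u} F)) _ = 0 at h1
    rw [map_sub, map_f, lift_of_apply, sub_eq_zero] at h1
    exact f_model_ne _ h1
  intro hRF
  obtain ⟨J, hJ, haJ, hfin⟩ := hRF a ha
  let J' : Submodule F (RelFree.{u} F {P F} n) := J
  have hfin' : Finite (RelFree.{u} F {P F} n ⧸ J') := hfin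
  exact haJ (fg_mem (J := J') hJ _ hid _)

end

end Pool.Agent.Results.MP_e7abc8_al.NotResiduallyFinite
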